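import Pool.Agent.H66.SE.Calc

/-!
# MP_eaeaf5_lc, part K: the conditions `MC3` are closed
-/

set_option linter.unusedVariables false

open Ordinal Order Set
open scoped ZFSet

namespace SE

open SF CAA H66

/-- KP3 -/
theorem pf_KP3 (H1 : T_KH1) (H2 : T_KH2) (A : T_AA) : T_KP3 := by
  have tPL : Tm ZFm (fun _ _ => PL hf) := Tm.PL A.2.2.2.2.2.2.2.1
  have pr : Cls fun F v => ∀ m ∈ hf, ∀ n ∈ hf, ∀ z ∈ hf,
      (em F z (F (ky 6 (ZFSet.pair m n))) ↔ eqv F z m ∨ eqv F z n) := by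
    -- `v 0 = F ..`, `v 1 = z`, `v 2 = n`, `v 3 = m`
    have h0 := csub H2 (tky A 6 (tpair A (tvar 2) (tvar 1)))
      (ciff H1 H2 (cem H1 H2 A (tvar 1) (tvar 0))
        (cor H1 H2 (ceq H1 H2 A (tvar 1) (tvar 3)) (ceq H1 H2 A (tvar 1) (tvar 2))))
    have h := call H1 (call H1 (call H1 h0.1))
    exact h
  have u1 : Cls fun F v => ∀ m ∈ hf, ∀ z ∈ hf, ∀ u ∈ hf, em F z u → em F u m →
      em F z (F (ky 7 m)) := by
    -- `v 0 = F ..`, `v 1 = u`, `v 2 = z`, `v 3 = m`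
    have h0 := csub H2 (tky A 7 (tvar 2))
      (cimp H1 H2 (cem H1 H2 A (tvar 2) (tvar 1)) (cimp H1 H2 (cem H1 H2 A (tvar 1) (tvar 3))
        (cem H1 H2 A (tvar 2) (tvar 0))))
    have h := call H1 (call H1 (call H1 h0.1))
    exact h
  have u2 : Cls fun F v => ∀ m ∈ hf, ∀ z ∈ hf, em F z (F (ky 7 m)) →
      em F z (F (ky 8 (ZFSet.pair m z))) ∧ em F (F (ky 8 (ZFSet.pair m z))) m := by
    -- `v 0 = F (ky 8 ..)`, `v 1 = F (ky 7 ..)`, `v 2 = z`, `v 3 = m`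
    have h0 := csub H2 (tky A 8 (tpair A (tvar 2) (tvar 1)))
      (cimp H1 H2 (cem H1 H2 A (tvar 2) (tvar 1))
        (cand H1 H2 (cem H1 H2 A (tvar 2) (tvar 0)) (cem H1 H2 A (tvar 0) (tvar 3))))
    have h1 := csub H2 (tky A 7 (tvar 1)) h0
    have h := call H1 (call H1 h1.1)
    exact h
  have sp : Cls fun F v => ∀ c ∈ CD, ∀ t ∈ PL hf, ∀ a ∈ hf, ∀ z ∈ hf,
      (em F z (F (ky 10 (ZFSet.pair c (ZFSet.pair t a)))) ↔ em F z a ∧ tv F c (psh z t)) := by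
    -- `v 0 = F (ky 10 ..)`, `v 1 = z`, `v 2 = a`, `v 3 = t`, `v 4 = c`
    have h0 := csub H2 (tky A 10 (tpair A (tvar 3) (tpair A (tvar 2) (tvar 1))))
      (ciff H1 H2 (cem H1 H2 A (tvar 1) (tvar 0))
        (cand H1 H2 (cem H1 H2 A (tvar 1) (tvar 2))
          (ctv H1 H2 A (tvar 4) (tpsh A (tvar 1) (tvar 3)))))
    have h1 := call H1 (call H1 h0.1)
    have h := callT H1 H2 Tm.CD (CD_sub A) (callT H1 H2 tPL (PL_sub A) h1)
    exact h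
  have co : Cls fun F v => ∀ c ∈ CD, ∀ t ∈ PL hf, ∀ a ∈ hf, ∀ x ∈ hf, ∀ y ∈ hf, em F x a →
      tv F c (psh y (psh x t)) →
        em F (F (ky 12 (ZFSet.pair c (ZFSet.pair t (ZFSet.pair
          (F (ky 11 (ZFSet.pair c (ZFSet.pair t a)))) x)))))
          (F (ky 11 (ZFSet.pair c (ZFSet.pair t a)))) ∧
        tv F c (psh (F (ky 12 (ZFSet.pair c (ZFSet.pair t (ZFSet.pair
          (F (ky 11 (ZFSet.pair c (ZFSet.pair t a)))) x))))) (psh x t)) := by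
    -- `v 0 = F (ky 12 ..)`, `v 1 = F (ky 11 ..)`, `v 2 = y`, `v 3 = x`, `v 4 = a`, `v 5 = t`,
    -- `v 6 = c`
    have h0 := csub H2 (tky A 12 (tpair A (tvar 5) (tpair A (tvar 4) (tpair A (tvar 0) (tvar 2)))))
      (cimp H1 H2 (cem H1 H2 A (tvar 3) (tvar 4))
        (cimp H1 H2 (ctv H1 H2 A (tvar 6) (tpsh A (tvar 2) (tpsh A (tvar 3) (tvar 5))))
          (cand H1 H2 (cem H1 H2 A (tvar 0) (tvar 1))
            (ctv H1 H2 A (tvar 6) (tpsh A (tvar 0) (tpsh A (tvar 3) (tvar 5)))))))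
    have h1 := csub H2 (tky A 11 (tpair A (tvar 4) (tpair A (tvar 3) (tvar 2)))) h0
    have h2 := call H1 (call H1 (call H1 h1.1))
    have h := callT H1 H2 Tm.CD (CD_sub A) (callT H1 H2 tPL (PL_sub A) h2)
    exact h
  have all := H1.1 _ _ pr (H1.1 _ _ u1 (H1.1 _ _ u2 (H1.1 _ _ sp co)))
  refine cgr H2 all fun F v => ?_
  constructor
  · rintro ⟨a1, a2, a3, a4, a5⟩
    refine ⟨a1, a2, a3, a4, ?_⟩
    rintro c hc t ht a ha x hx y hy h1 h2 b rfl u rfl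
    exact a5 c hc t ht a ha x hx y hy h1 h2
  · rintro ⟨a1, a2, a3, a4, a5⟩
    refine ⟨a1, a2, a3, a4, ?_⟩
    intro c hc t ht a ha x hx y hy h1 h2
    exact a5 c hc t ht a ha x hx y hy h1 h2 _ rfl _ rfl

end SE
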