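import Pool.Agent.H9.SE.TarK

/-!
# MP_eaeaf5_lc, part K: calculus of closed conditions (tools for KP2, KP3)
-/

set_option linter.unusedVariables false

open Ordinal Order Set
open scoped ZFSet

namespace SE

namespace H66

open SF CAA

/-! ## Hereditarily finite sets -/

theorem hf_pair (A : T_AA) {x y : V} (hx : x ∈ hf) (hy : y ∈ hf) : ZFSet.pair x y ∈ hf :=
  A.2.2.2.1 x hx y hy

theorem hf_nS (A : T_AA) (n : ℕ) : nS n ∈ hf := A.2.1 n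

theorem hf_empty (A : T_AA) : (∅ : V) ∈ hf := by
  have h := A.2.1 0
  rwa [nS_zero] at h

theorem hf_tr (A : T_AA) {x y : V} (hx : x ∈ hf) (hy : y ∈ x) : y ∈ hf := A.1 x hx hy

theorem hf_of_pair (A : T_AA) {x y : V} (h : ZFSet.pair x y ∈ hf) : x ∈ hf ∧ y ∈ hf := by
  have h1 : ({x, y} : V) ∈ ZFSet.pair x y := by
    unfold ZFSet.pair
    exact ZFSet.mem_pair.2 (Or.inr rfl)
  have h2 := hf_tr A h h1
  exact ⟨hf_tr A h2 (ZFSet.mem_pair.2 (Or.inl rfl)), hf_tr A h2 (ZFSet.mem_pair.2 (Or.inr rfl))⟩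

theorem hf_fst (A : T_AA) {q : V} (h : q ∈ hf) : fst q ∈ hf := by
  by_cases hq : ∃ x y, q = ZFSet.pair x y
  · obtain ⟨x, y, rfl⟩ := hq
    rw [fst_pair]
    exact (hf_of_pair A h).1
  · unfold fst
    rw [dif_neg hq]
    exact hf_empty A

theorem hf_snd (A : T_AA) {q : V} (h : q ∈ hf) : snd q ∈ hf := by
  by_cases hq : ∃ y x, q = ZFSet.pair x y
  · obtain ⟨y, x, rfl⟩ := hq
    rw [snd_pair]
    exact (hf_of_pair A h).2
  · unfold snd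
    rw [dif_neg hq]
    exact hf_empty A

theorem hf_cd (A : T_AA) (φ : Fml) : cd φ ∈ hf := by
  induction φ with
  | mem i j => exact hf_pair A (hf_nS A _) (hf_pair A (hf_nS A _) (hf_nS A _))
  | eq i j => exact hf_pair A (hf_nS A _) (hf_pair A (hf_nS A _) (hf_nS A _))
  | prd i => exact hf_pair A (hf_nS A _) (hf_nS A _)
  | neg φ ih => exact hf_pair A (hf_nS A _) ih
  | and φ ψ ih1 ih2 => exact hf_pair A (hf_nS A _) (hf_pair A ih1 ih2)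
  | ex φ ih => exact hf_pair A (hf_nS A _) ih

theorem CD_sub (A : T_AA) : CD ⊆ hf := by
  intro c hc
  obtain ⟨φ, rfl⟩ := mem_CD.1 hc
  exact hf_cd A φ

theorem hf_lc (A : T_AA) {l : List V} (h : ∀ p ∈ l, p ∈ hf) : lc l ∈ hf := by
  induction l with
  | nil => exact hf_empty A
  | cons a l ih =>
    exact hf_pair A (h a List.mem_cons_self) (ih fun p hp => h p (List.mem_cons_of_mem _ hp))

theorem PL_sub (A : T_AA) : PL hf ⊆ hf := by
  intro t ht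
  obtain ⟨d, l, rfl, hd, hl⟩ := mem_PL.1 ht
  exact hf_pair A hd (hf_lc A hl)

/-! ## Terms -/

theorem tm_cd (φ : Fml) : Tm ZFm (fun _ _ => cd φ) := by
  induction φ with
  | mem i j => exact Tm.pair (Tm.nS _) (Tm.pair (Tm.nS _) (Tm.nS _))
  | eq i j => exact Tm.pair (Tm.nS _) (Tm.pair (Tm.nS _) (Tm.nS _))
  | prd i => exact Tm.pair (Tm.nS _) (Tm.nS _)
  | neg φ ih => exact Tm.pair (Tm.nS _) ih
  | and φ ψ ih1 ih2 => exact Tm.pair (Tm.nS _) (Tm.pair ih1 ih2)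
  | ex φ ih => exact Tm.pair (Tm.nS _) ih

theorem tvar (i : ℕ) : TmH (fun v => v i) := ⟨Tm.var i, fun v hv => hv i⟩

theorem tpair (A : T_AA) {a b : (ℕ → V) → V} (ha : TmH a) (hb : TmH b) :
    TmH (fun v => ZFSet.pair (a v) (b v)) :=
  ⟨Tm.pair ha.1 hb.1, fun v hv => hf_pair A (ha.2 v hv) (hb.2 v hv)⟩

theorem tnS (A : T_AA) (n : ℕ) : TmH (fun _ => nS n) := ⟨Tm.nS n, fun v hv => hf_nS A n⟩

theorem temp (A : T_AA) : TmH (fun _ => (∅ : V)) := ⟨Tm.empty, fun v hv => hf_empty A⟩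

theorem tcd (A : T_AA) (φ : Fml) : TmH (fun _ => cd φ) := ⟨tm_cd φ, fun v hv => hf_cd A φ⟩

theorem tky (A : T_AA) (k : ℕ) {a : (ℕ → V) → V} (ha : TmH a) : TmH (fun v => ky k (a v)) :=
  tpair A (tnS A k) ha

theorem tnm (A : T_AA) {a : (ℕ → V) → V} (ha : TmH a) : TmH (fun v => nm (a v)) :=
  tpair A (tnS A 1) ha

theorem tpsh (A : T_AA) {a b : (ℕ → V) → V} (ha : TmH a) (hb : TmH b) :
    TmH (fun v => psh (a v) (b v)) :=
  ⟨Tm.psh ha.1 hb.1, fun v hv =>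
    hf_pair A (hf_fst A (hb.2 v hv)) (hf_pair A (ha.2 v hv) (hf_snd A (hb.2 v hv)))⟩

theorem tpl2 (A : T_AA) {a b : (ℕ → V) → V} (ha : TmH a) (hb : TmH b) :
    TmH (fun v => pl ∅ [a v, b v]) :=
  tpair A (temp A) (tpair A ha (tpair A hb (temp A)))

/-! ## Conditions -/

/-- conditions which are closed and have closed negations -/
def Clp (P : (V → V) → (ℕ → V) → Prop) : Prop := Cls P ∧ Cls fun F v => ¬ P F v

theorem cgr (H2 : T_KH2) {P Q : (V → V) → (ℕ → V) → Prop} (hP : Cls P)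
    (h : ∀ F v, P F v ↔ Q F v) : Cls Q :=
  H2.2.2 P Q hP fun F v _ _ => h F v

theorem cnot (H2 : T_KH2) {P : (V → V) → (ℕ → V) → Prop} (hP : Clp P) :
    Clp fun F v => ¬ P F v :=
  ⟨hP.2, cgr H2 hP.1 fun F v => not_not.symm⟩

theorem cand (H1 : T_KH1) (H2 : T_KH2) {P Q : (V → V) → (ℕ → V) → Prop} (hP : Clp P)
    (hQ : Clp Q) : Clp fun F v => P F v ∧ Q F v :=
  ⟨H1.1 P Q hP.1 hQ.1, cgr H2 (H1.2.1 _ _ hP.2 hQ.2) fun F v => not_and_or.symm⟩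

theorem cor (H1 : T_KH1) (H2 : T_KH2) {P Q : (V → V) → (ℕ → V) → Prop} (hP : Clp P)
    (hQ : Clp Q) : Clp fun F v => P F v ∨ Q F v :=
  ⟨H1.2.1 P Q hP.1 hQ.1, cgr H2 (H1.1 _ _ hP.2 hQ.2) fun F v => not_or.symm⟩

theorem cimp (H1 : T_KH1) (H2 : T_KH2) {P Q : (V → V) → (ℕ → V) → Prop} (hP : Clp P)
    (hQ : Clp Q) : Clp fun F v => P F v → Q F v :=
  ⟨cgr H2 (H1.2.1 _ _ hP.2 hQ.1) fun F v => imp_iff_not_or.symm,
    cgr H2 (H1.1 _ _ hP.1 hQ.2) fun F v => Classical.not_imp.symm⟩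

theorem ciff (H1 : T_KH1) (H2 : T_KH2) {P Q : (V → V) → (ℕ → V) → Prop} (hP : Clp P)
    (hQ : Clp Q) : Clp fun F v => (P F v ↔ Q F v) := by
  have h := cand H1 H2 (cimp H1 H2 hP hQ) (cimp H1 H2 hQ hP)
  refine ⟨cgr H2 h.1 fun F v => iff_iff_implies_and_implies.symm, cgr H2 h.2 fun F v => ?_⟩
  exact not_congr iff_iff_implies_and_implies.symm

theorem cdfb (H1 : T_KH1) {R : (ℕ → V) → Prop} (hR : Dfb ZFm (fun _ v => R v)) :
    Clp fun _ v => R v :=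
  ⟨H1.2.2.2.2.1 R hR, H1.2.2.2.2.1 (fun v => ¬ R v) hR.not⟩

theorem cval (H1 : T_KH1) (H2 : T_KH2) {k b : (ℕ → V) → V} (hk : TmH k) (hb : TmH b) :
    Clp fun F v => F (k v) = b v :=
  ⟨H1.2.2.2.2.2.1 k b hk hb, H1.2.2.2.2.2.2 k b hk hb⟩

theorem csub (H2 : T_KH2) {k : (ℕ → V) → V} {P : (V → V) → (ℕ → V) → Prop} (hk : TmH k)
    (hP : Clp P) : Clp fun F v => P F (cons (F (k v)) v) :=
  ⟨H2.1 k P hk hP.1, H2.1 k (fun F v => ¬ P F v) hk hP.2⟩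

theorem ctv (H1 : T_KH1) (H2 : T_KH2) (A : T_AA) {c t : (ℕ → V) → V} (hc : TmH c)
    (ht : TmH t) : Clp fun F v => tv F (c v) (t v) :=
  cval H1 H2 (tky A 0 (tpair A hc ht)) (tnS A 1)

theorem cem (H1 : T_KH1) (H2 : T_KH2) (A : T_AA) {c t : (ℕ → V) → V} (hc : TmH c)
    (ht : TmH t) : Clp fun F v => em F (c v) (t v) :=
  ctv H1 H2 A (tcd A _) (tpl2 A hc ht)

theorem ceq (H1 : T_KH1) (H2 : T_KH2) (A : T_AA) {c t : (ℕ → V) → V} (hc : TmH c)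
    (ht : TmH t) : Clp fun F v => eqv F (c v) (t v) :=
  ctv H1 H2 A (tcd A _) (tpl2 A hc ht)

theorem call (H1 : T_KH1) {P : (V → V) → (ℕ → V) → Prop} (hP : Cls P) :
    Cls fun F v => ∀ h ∈ hf, P F (cons h v) := H1.2.2.1 P hP

/-- bounded quantifiers -/
theorem callB (H1 : T_KH1) (H2 : T_KH2) {T : (ℕ → V) → V} (hT : Tm ZFm (fun _ v => T v))
    (hs : ∀ v, In (· ∈ hf) v → T v ⊆ hf) {P : (V → V) → (ℕ → V) → Prop} (hP : Cls P) :
    Cls fun F v => ∀ h ∈ T v, P F (cons h v) := by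
  have hR : Dfb ZFm (fun _ v => v 0 ∈ T (fun i => v (i + 1))) :=
    Dfb.mem (Tm.var 0) (hT.rn (fun i => i + 1))
  have h1 := H1.2.2.2.1 (fun v => v 0 ∈ T (fun i => v (i + 1))) P hR hP
  have h2 := call H1 h1
  refine H2.2.2 _ _ h2 fun F v _ hv => ?_
  constructor
  · intro h x hx
    exact h x (hs v hv hx) hx
  · intro h x _ hx
    exact h x hx

theorem callT (H1 : T_KH1) (H2 : T_KH2) {S : V} (hT : Tm ZFm (fun _ _ => S))
    (hs : S ⊆ hf) {P : (V → V) → (ℕ → V) → Prop} (hP : Cls P) :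
    Cls fun F v => ∀ h ∈ S, P F (cons h v) :=
  callB H1 H2 (T := fun _ => S) hT (fun _ _ => hs) hP

end H66

end SE
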