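import Pool.Agent.H66.SE.Calc

/-!
# MP_eaeaf5_lc, part K: the conditions `MC2` are closed
-/

set_option linter.unusedVariables false

open Ordinal Order Set
open scoped ZFSet

namespace SE

open SF CAA H66

/-- KP2 -/
theorem pf_KP2 (H1 : T_KH1) (H2 : T_KH2) (A : T_AA) : T_KP2 := by
  have e1 : Cls fun F v => ∀ m ∈ hf, ∀ n ∈ hf, ∀ z ∈ hf, eqv F m n → (em F z m ↔ em F z n) := by
    have h := call H1 (call H1 (call H1 (cimp H1 H2 (ceq H1 H2 A (tvar 2) (tvar 1))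
      (ciff H1 H2 (cem H1 H2 A (tvar 0) (tvar 2)) (cem H1 H2 A (tvar 0) (tvar 1)))).1))
    exact h
  have e2 : Cls fun F v => ∀ z ∈ hf, ∀ z' ∈ hf, ∀ m ∈ hf,
      eqv F z z' → (em F z m ↔ em F z' m) := by
    have h := call H1 (call H1 (call H1 (cimp H1 H2 (ceq H1 H2 A (tvar 2) (tvar 1))
      (ciff H1 H2 (cem H1 H2 A (tvar 2) (tvar 0)) (cem H1 H2 A (tvar 1) (tvar 0)))).1))
    exact h
  have e3 : Cls fun F v => ∀ m ∈ hf, ∀ n ∈ hf, ¬ eqv F m n →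
      ¬ (em F (F (ky 2 (ZFSet.pair m n))) m ↔ em F (F (ky 2 (ZFSet.pair m n))) n) := by
    have h0 := csub H2 (tky A 2 (tpair A (tvar 1) (tvar 0)))
      (cimp H1 H2 (cnot H2 (ceq H1 H2 A (tvar 2) (tvar 1)))
        (cnot H2 (ciff H1 H2 (cem H1 H2 A (tvar 0) (tvar 2)) (cem H1 H2 A (tvar 0) (tvar 1)))))
    have h := call H1 (call H1 h0.1)
    exact h
  have n1 : Cls fun F v => ∀ h ∈ hf, ∀ h' ∈ h, em F (nm h') (nm h) := by
    have h0 := cem H1 H2 A (tnm A (tvar 0)) (tnm A (tvar 1))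
    have h1 := callB H1 H2 (T := fun v => v 0) (Tm.var 0)
      (fun v hv x hx => hf_tr A (hv 0) hx) h0.1
    have h := call H1 h1
    exact h
  have n2 : Cls fun F v => ∀ h ∈ hf, ∀ z ∈ hf, em F z (nm h) →
      F (ky 3 (ZFSet.pair z h)) ∈ h ∧ eqv F z (nm (F (ky 3 (ZFSet.pair z h)))) := by
    have h0 := csub H2 (tky A 3 (tpair A (tvar 0) (tvar 1)))
      (cimp H1 H2 (cem H1 H2 A (tvar 1) (tnm A (tvar 2)))
        (cand H1 H2 (cdfb H1 (R := fun v => v 0 ∈ v 2) (Dfb.mem (Tm.var 0) (Tm.var 2)))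
          (ceq H1 H2 A (tvar 1) (tnm A (tvar 0)))))
    have h := call H1 (call H1 h0.1)
    exact h
  have o1 : Cls fun F v => ∀ n ∈ om, em F (nm n) (nS 1) := by
    have h := callT H1 H2 Tm.om A.2.2.1 (cem H1 H2 A (tnm A (tvar 0)) (tnS A 1)).1
    exact h
  have o2 : Cls fun F v => ∀ z ∈ hf, em F z (nS 1) →
      F (ky 4 z) ∈ om ∧ eqv F z (nm (F (ky 4 z))) := by
    have h0 := csub H2 (tky A 4 (tvar 0))
      (cimp H1 H2 (cem H1 H2 A (tvar 1) (tnS A 1))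
        (cand H1 H2 (cdfb H1 (R := fun v => v 0 ∈ om) (Dfb.mem (Tm.var 0) Tm.om))
          (ceq H1 H2 A (tvar 1) (tnm A (tvar 0)))))
    have h := call H1 h0.1
    exact h
  have x1 : Cls fun F v => ∀ n ∈ om, em F (nm (ZFSet.pair n (F (ky 9 n)))) ∅ := by
    have h0 := csub H2 (tky A 9 (tvar 0))
      (cem H1 H2 A (tnm A (tpair A (tvar 1) (tvar 0))) (temp A))
    have h := callT H1 H2 Tm.om A.2.2.1 h0.1
    exact h
  have x2 : Cls fun F v => ∀ z ∈ hf, em F z ∅ → F (ky 5 z) ∈ om ∧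
      eqv F z (nm (ZFSet.pair (F (ky 5 z)) (F (ky 9 (F (ky 5 z)))))) := by
    -- variables: `v 0 = F (ky 9 (v 1))`, `v 1 = F (ky 5 (v 2))`, `v 2 = z`
    have h0 := csub H2 (tky A 9 (tvar 0))
      (cimp H1 H2 (cem H1 H2 A (tvar 2) (temp A))
        (cand H1 H2 (cdfb H1 (R := fun v => v 1 ∈ om) (Dfb.mem (Tm.var 1) Tm.om))
          (ceq H1 H2 A (tvar 2) (tnm A (tpair A (tvar 1) (tvar 0))))))
    have h1 := csub H2 (tky A 5 (tvar 0)) h0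
    have h := call H1 h1.1
    exact h
  have all := H1.1 _ _ e1 (H1.1 _ _ e2 (H1.1 _ _ e3 (H1.1 _ _ n1 (H1.1 _ _ n2 (H1.1 _ _ o1
    (H1.1 _ _ o2 (H1.1 _ _ x1 x2)))))))
  refine cgr H2 all fun F v => ?_
  constructor
  · rintro ⟨a1, a2, a3, a4, a5, a6, a7, a8, a9⟩
    exact ⟨a1, a2, a3, a4, a5, a6, a7, a8, a9⟩
  · rintro ⟨a1, a2, a3, a4, a5, a6, a7, a8, a9⟩
    exact ⟨a1, a2, a3, a4, a5, a6, a7, a8, a9⟩

end SE
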